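import Pool.Agent.H23.Raj1

set_option autoImplicit false
set_option maxSynthPendingDepth 3

namespace Pool.Agent.Results.MP_c7f57c_an.Multiplicity

open Finset Filter Topology MeasureTheory Pool.Agent.H23.Raj

/-- The Moran set of bases `M 0, M 1, …` and digit sets `D 0, D 1, …`. -/
def Moran (M : ℕ → ℕ) (D : ℕ → Finset ℕ) : Set ℝ :=
  {x | ∃ d : ℕ → ℕ, (∀ n, d n ∈ D n) ∧ x = ∑' n, (d n : ℝ) / ∏ i ∈ range (n + 1), (M i : ℝ)}

lemma term_le {n d : ℕ} (h : d ∈ DD n) : (d : ℝ) / Q (n + 1) ≤ 1 / Q n - 1 / Q (n + 1) := by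
  have h1 : (d : ℝ) ≤ n + 1 := by exact_mod_cast DD_le h
  have h2 := Q_pos n
  have h3 : 1 / Q n - 1 / Q (n + 1) = (n + 2) / Q (n + 1) := by rw [Q_succ]; field_simp; ring
  rw [h3]
  exact div_le_div_of_nonneg_right (by linarith) (Q_pos _).le

lemma tel (N : ℕ) : HasSum (fun n => 1 / Q (n + N) - 1 / Q (n + N + 1)) (1 / Q N) := by
  have h0 : ∀ n, 0 ≤ 1 / Q (n + N) - 1 / Q (n + N + 1) := fun n =>
    sub_nonneg.2 (one_div_le_one_div_of_le (Q_pos _) (Q_mono (Nat.le_succ _)))
  rw [hasSum_iff_tendsto_nat_of_nonneg h0]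
  have h1 : ∀ m, ∑ n ∈ range m, (1 / Q (n + N) - 1 / Q (n + N + 1)) = 1 / Q N - 1 / Q (m + N) := by
    intro m
    induction m with
    | zero => simp
    | succ m ih => rw [sum_range_succ, ih, show m + 1 + N = m + N + 1 by ring]; ring
  simp only [h1]
  have h2 : Tendsto (fun m => 1 / Q (m + N)) atTop (𝓝 0) := by
    refine tendsto_const_nhds.div_atTop (tendsto_atTop_mono (fun m => ?_) tendsto_natCast_atTop_atTop)
    have := Q_ge (m + N)
    push_cast at this
    linarith [(Nat.cast_nonneg N : (0 : ℝ) ≤ N)]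
  simpa using tendsto_const_nhds.sub h2

lemma tail (d : ℕ → ℕ) (hd : ∀ n, d n ∈ DD n) (N : ℕ) :
    ∑' n, (d n : ℝ) / Q (n + 1) ∈ Set.Icc (∑ n ∈ range N, (d n : ℝ) / Q (n + 1))
      (∑ n ∈ range N, (d n : ℝ) / Q (n + 1) + 1 / Q N) := by
  have h0 : ∀ n, 0 ≤ (d n : ℝ) / Q (n + 1) := fun n => div_nonneg (Nat.cast_nonneg _) (Q_pos _).le
  have hs : Summable (fun n => (d n : ℝ) / Q (n + 1)) :=
    Summable.of_nonneg_of_le h0 (fun n => term_le (hd n)) (tel 0).summable
  rw [← hs.sum_add_tsum_nat_add N]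
  refine ⟨le_add_of_nonneg_right (tsum_nonneg fun n => h0 _), add_le_add le_rfl ?_⟩
  rw [← (tel N).tsum_eq]
  exact ((summable_nat_add_iff N).2 hs).tsum_le_tsum (fun n => term_le (hd _)) (tel N).summable

lemma card_le (N : ℕ) : ((PP N).card : ℝ) / Q N ≤ 2 / (N + 2) := by
  have h1 : ((PP N).card : ℝ) = ∏ i ∈ range N, ((DD i).card : ℝ) := by
    rw [PP, Fintype.card_piFinset, ← Fin.prod_univ_eq_prod_range (fun i => ((DD i).card : ℝ))]
    push_cast; rfl
  rw [h1]
  clear h1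
  induction N with
  | zero => simp [Q]
  | succ N ih =>
    rw [prod_range_succ, Q_succ, mul_div_mul_comm]
    have h2 : ((DD N).card : ℝ) ≤ N + 2 := by exact_mod_cast DD_card N
    calc _ ≤ 2 / (N + 2 : ℝ) * ((N + 2) / (N + 3)) := by gcongr
      _ = _ := by push_cast; field_simp; ring

lemma null : volume (Moran MM DD) = 0 := by
  have h : ∀ N : ℕ, volume (Moran MM DD) ≤ ENNReal.ofReal (2 / (N + 2)) := by
    intro N
    have h1 : Moran MM DD ⊆ ⋃ d ∈ PP N, Set.Icc (pt N d) (pt N d + 1 / Q N) := by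
      rintro x ⟨d, hd, rfl⟩
      simp only [Set.mem_iUnion]
      refine ⟨fun i => d i, Fintype.mem_piFinset.2 (fun i => hd i), ?_⟩
      have := tail d hd N
      rw [← Fin.sum_univ_eq_sum_range (fun n => (d n : ℝ) / Q (n + 1))] at this
      exact this
    refine (measure_mono h1).trans ((measure_biUnion_finset_le _ _).trans ?_)
    simp only [Real.volume_Icc, add_sub_cancel_left, sum_const, nsmul_eq_mul]
    rw [← ENNReal.ofReal_natCast, ← ENNReal.ofReal_mul (Nat.cast_nonneg _), mul_one_div]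
    exact ENNReal.ofReal_le_ofReal (card_le N)
  have h2 : Tendsto (fun N : ℕ => ENNReal.ofReal (2 / ((N : ℝ) + 2))) atTop (𝓝 0) := by
    rw [← ENNReal.ofReal_zero]
    exact ENNReal.tendsto_ofReal (tendsto_const_nhds.div_atTop
      (tendsto_atTop_add_const_right _ _ tendsto_natCast_atTop_atTop))
  exact le_antisymm (ge_of_tendsto' h2 h) bot_le

lemma compact : IsCompact (Moran MM DD) := by
  have h1 : IsCompact (Set.pi Set.univ fun n => (DD n : Set ℕ)) :=
    isCompact_univ_pi fun n => (DD n).finite_toSet.isCompact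
  have h2 : ContinuousOn (fun d : ℕ → ℕ => ∑' n, (d n : ℝ) / Q (n + 1))
      (Set.pi Set.univ fun n => (DD n : Set ℕ)) := by
    refine continuousOn_tsum (fun n => Continuous.continuousOn ?_) (tel 0).summable
      (fun n d hd => ?_)
    · exact ((continuous_of_discreteTopology (f := fun k : ℕ => (k : ℝ))).comp
        (continuous_apply n)).div_const _
    · rw [Real.norm_of_nonneg (div_nonneg (Nat.cast_nonneg _) (Q_pos _).le)]
      exact term_le (hd n trivial)
  have h3 := h1.image_of_continuousOn h2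
  refine (Set.ext fun x => ?_ : _ = Moran MM DD) ▸ h3
  constructor
  · rintro ⟨d, hd, rfl⟩; exact ⟨d, fun n => hd n trivial, rfl⟩
  · rintro ⟨d, hd, rfl⟩; exact ⟨d, fun n _ => hd n, rfl⟩

lemma mid {t : ℝ} (h : t ∈ Moran MM DD) : 1 / 3 ≤ t ∧ t ≤ 2 / 3 := by
  obtain ⟨d, hd, rfl⟩ := h
  have h1 := tail d hd 1
  have h2 : d 0 = 1 := by simpa [DD] using hd 0
  have h3 : Q 1 = 3 := by simp [Q, MM]
  simp only [range_one, sum_singleton, h2, zero_add, h3] at h1
  exact ⟨le_trans (by norm_num) h1.1, le_trans h1.2 (by norm_num)⟩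

lemma pt_mem (N : ℕ) (hN : 1 ≤ N) (d : Fin N → ℕ) (hd : d ∈ PP N) : pt N d ∈ Moran MM DD := by
  refine ⟨fun n => if h : n < N then d ⟨n, h⟩ else 0, fun n => ?_, ?_⟩
  · by_cases h : n < N
    · simpa [h] using Fintype.mem_piFinset.1 hd ⟨n, h⟩
    · simp [h, DD, show n ≠ 0 by omega]
  · rw [tsum_eq_sum (s := range N) (fun n hn => by simp [show ¬ n < N by simpa using hn]),
      ← Fin.sum_univ_eq_sum_range (fun n => (((if h : n < N then d ⟨n, h⟩ else 0 : ℕ) : ℝ)) /
        ∏ i ∈ range (n + 1), (MM i : ℝ))]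
    simp [pt, Q]

lemma far (x : ℝ) (hx : x ∈ Set.Icc (0 : ℝ) 1) (hK : x ∉ Moran MM DD) :
    ∃ η > 0, ∀ t ∈ Moran MM DD, η ≤ ‖1 - e (x - t)‖ := by
  have hc : Continuous (fun t => ‖1 - e (x - t)‖) :=
    (continuous_const.sub (e_cont.comp (continuous_const.sub continuous_id))).norm
  obtain ⟨d, hd⟩ := card_pos.1 (PP_pos 1)
  obtain ⟨t0, ht0, hmin⟩ := compact.exists_isMinOn ⟨_, pt_mem 1 le_rfl d hd⟩ hc.continuousOn
  refine ⟨_, norm_pos_iff.2 (sub_ne_zero.2 (e_ne_one (x - t0) ?_ ?_).symm), fun t ht => hmin ht⟩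
  · have := mid ht0
    rw [abs_lt]; constructor <;> linarith [hx.1, hx.2]
  · intro h
    exact hK (sub_eq_zero.1 h ▸ ht0)

lemma dirichlet (w : ℂ) (hw : ‖w‖ = 1) (h1 : 1 - w ≠ 0) (m : ℕ) :
    ∑ n ∈ range (m + 1), (if n = 0 then 1 else 2) * (w ^ n).re
      = -2 * (w ^ (m + 1) * (1 / (1 - w))).re := by
  induction m with
  | zero =>
    have h2 : w.re ^ 2 + w.im ^ 2 = 1 := by
      have := Complex.sq_norm w
      rw [hw, Complex.normSq_apply] at this
      nlinarith
    have h3 : Complex.normSq (1 - w) ≠ 0 := by simpa using h1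
    have h4 : Complex.normSq (1 - w) = 2 - 2 * w.re := by
      rw [Complex.normSq_apply]; simp; nlinarith
    simp only [zero_add, range_one, sum_singleton, if_true, pow_zero, Complex.one_re, mul_one,
      pow_one, mul_one_div, Complex.div_re]
    rw [← add_div, ← mul_div_assoc, eq_div_iff h3, h4]
    simp
    nlinarith
  | succ m ih =>
    rw [sum_range_succ, ih]
    have : w ^ (m + 1 + 1) * (1 / (1 - w)) = w ^ (m + 1) * (1 / (1 - w)) - w ^ (m + 1) := by
      field_simp; ring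
    rw [this]; simp; ring

lemma E_re (N : ℕ) (h : ℝ → ℂ) : (E N h).re = (∑ d ∈ PP N, (h (pt N d)).re) / (PP N).card := by
  rw [E, Complex.div_natCast_re, Complex.re_sum]

/-- A Lebesgue-null Moran set outside which a nonzero trigonometric series converges to zero. -/
theorem result : ∃ (M : ℕ → ℕ) (D : ℕ → Finset ℕ), (∀ n, 2 ≤ M n) ∧
    (∀ n, (D n).Nonempty ∧ D n ⊆ range (M n)) ∧ volume (Moran M D) = 0 ∧
    ∃ a b : ℕ → ℝ, a 0 = 1 ∧ ∀ x ∈ Set.Icc (0 : ℝ) 1 \ Moran M D,
      Tendsto (fun N => ∑ n ∈ range N,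
        (a n * Real.cos (2 * Real.pi * n * x) + b n * Real.sin (2 * Real.pi * n * x)))
        atTop (𝓝 0) := by
  refine ⟨MM, DD, fun n => by simp [MM], fun n => ⟨DD_ne n, fun d hd => ?_⟩, null, ?_⟩
  · have := DD_le hd
    simp [MM]; omega
  let U : Ultrafilter ℕ := hyperfilter ℕ
  have hU : (U : Filter ℕ) ≤ atTop := Nat.hyperfilter_le_atTop
  have hc : ∀ n : ℕ, ∃ c : ℂ, Tendsto (fun N => E N (fun t => e (-n * t))) U (𝓝 c) := by
    intro n
    obtain ⟨c, -, hc⟩ := (isCompact_closedBall (0 : ℂ) 1).ultrafilter_le_nhds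
      (U.map (fun N => E N (fun t => e (-n * t)))) (by
        rw [le_principal_iff, Ultrafilter.coe_map, Filter.mem_map]
        exact univ_mem' (fun N => by
          simpa using E_le N (fun t => e (-n * t)) 1 (fun d _ => (e_norm _).le)))
    exact ⟨c, hc⟩
  choose c hc using hc
  refine ⟨fun n => (if n = 0 then 1 else 2) * (c n).re,
    fun n => -((if n = 0 then 1 else 2) * (c n).im), ?_, fun x hx => ?_⟩
  · have h1 := hc 0
    have h2 : ∀ N, E N (fun t => e (-(0 : ℕ) * t)) = 1 := by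
      intro N
      have : ((PP N).card : ℂ) ≠ 0 := by exact_mod_cast (PP_pos N).ne'
      simp [E, e_zero, this]
    simp only [h2] at h1
    simp [← tendsto_nhds_unique tendsto_const_nhds h1]
  obtain ⟨η, hη, hfar⟩ := far x hx.1 hx.2
  have hsm := small_inv x η hη (by
    filter_upwards [eventually_ge_atTop 1] with N hN d hd
    exact hfar _ (pt_mem N hN d hd))
  rw [← tendsto_add_atTop_iff_nat 1, Metric.tendsto_atTop]
  intro ε hε
  obtain ⟨R, hR⟩ := hsm (ε / 4) (by positivity)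
  obtain ⟨m0, hm0⟩ := exists_nat_gt R
  refine ⟨m0, fun m hm => ?_⟩
  have hlim : Tendsto (fun N => ∑ n ∈ range (m + 1),
      (if n = 0 then 1 else 2) * (e (n * x) * E N (fun t => e (-n * t))).re) U
      (𝓝 (∑ n ∈ range (m + 1), (if n = 0 then 1 else 2) * (e (n * x) * c n).re)) :=
    tendsto_finsetSum _ (fun n _ => ((Complex.continuous_re.tendsto _).comp
      ((hc n).const_mul _)).const_mul _)
  have hb : ∀ᶠ N in atTop, |∑ n ∈ range (m + 1),
      (if n = 0 then 1 else 2) * (e (n * x) * E N (fun t => e (-n * t))).re| ≤ ε / 2 := by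
    have hm' : (m0 : ℝ) ≤ m := by exact_mod_cast hm
    filter_upwards [hR (-(m + 1 : ℕ)) (by
      rw [abs_neg, Nat.abs_cast]; push_cast; linarith), eventually_ge_atTop 1] with N h1 hN
    have h2 : ∑ n ∈ range (m + 1),
        (if n = 0 then 1 else 2) * (e (n * x) * E N (fun t => e (-n * t))).re
        = -2 * (e ((m + 1 : ℕ) * x) *
          E N (fun t => e (-(m + 1 : ℕ) * t) * (1 / (1 - e (x - t))))).re := by
      simp only [← E_smul, E_re, ← mul_div_assoc, ← sum_div, mul_sum]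
      rw [sum_comm]
      congr 1
      refine sum_congr rfl (fun d hd => ?_)
      have h3 : ∀ n : ℕ, e (n * x) * e (-n * pt N d) = e (x - pt N d) ^ n := fun n => by
        rw [← e_add, ← e_nat]; ring_nf
      simp only [← mul_assoc, h3]
      rw [mul_div_assoc]
      exact dirichlet _ (e_norm _) (norm_pos_iff.1 (hη.trans_le (hfar _ (pt_mem N hN d hd)))) m
    rw [h2, abs_mul]
    have h4 := (Complex.abs_re_le_norm (e ((m + 1 : ℕ) * x) *
      E N (fun t => e (-(m + 1 : ℕ) * t) * (1 / (1 - e (x - t))))))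
    rw [norm_mul, e_norm, one_mul] at h4
    norm_num at h1 h4 ⊢
    linarith
  have h5 := le_of_tendsto hlim.abs (hb.filter_mono hU)
  rw [Real.dist_eq, sub_zero]
  refine lt_of_le_of_lt (le_of_eq ?_) (h5.trans_lt (by linarith))
  congr 1
  refine sum_congr rfl (fun n _ => ?_)
  rw [Complex.mul_re, e_re, e_im, ← mul_assoc]; ring

end Pool.Agent.Results.MP_c7f57c_an.Multiplicity
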